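import Pool.Agent.U738.RI.Main

/-!
# Beilinson's conjecture for the integral part: modifications and schemes built from small pieces

`Regulators`, `GenericFibre`: the regulators `reg n i X : M n i X → D n i X` of the motivic Borel-Moore
homology `M n i X = CH_n(X, i) ⊗ ℝ` of the separated schemes `X` of finite type over `ℤ`, and for `X`
connected, regular, proper and flat of dimension `d` (`IsArithmetic`) the restriction to the generic fibre and
its Beilinson regulator `H^{2d-1-i}(X_ℚ, ℚ(d)) ⊗ ℝ → H^{2d-1-i}_D(X_ℝ, ℝ(d))`. The known properties which are
used are `IsRegulator` (maps between the localization sequences, homotopy invariance, the theorems of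
Dirichlet, Borel and Harder in dimension at most one) and `IsGenericFibre`.

`Beilinson F X` is Q1 for `X`: the regulator on the integral part, the image of the restriction, is bijective
for `i ≥ 1`, and there is an exact sequence `0 → M^{2d-1} → D^{2d-1} → ℝ → 0`. `Flach F X`: the restriction
to the generic fibre is injective.

Let `N` be such that the regulators of all weights `n ≤ 0` are isomorphisms for the affine schemes of
dimension at most `N`; this is known for `N = 1`.

1. Q1 and Flach's injectivity are true for all connected, regular, proper and flat `X` in `Built N`, the
   class generated by cutting and pasting and products with the line from two-term equations over rings of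
   dimension at most `N` and actions of diagonalizable groups of complexity at most `N` (any dimension).
2. Let `X` and `Y` be connected, regular, proper and flat, of any dimension, and `Equivalent N`: they are
   connected by a chain of modifications, where schemes in `Built N` are removed or added as open or closed
   subschemes. Then Q1 and Flach's injectivity hold for `X` if and only if they hold for `Y`.
3. More precisely, for every weight `n ≤ 0` and all equivalent schemes the regulators of weight `n` of `X` are
   isomorphisms if and only if those of `Y` are; and Q1 with Flach's injectivity means that the regulators of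
   weight `0` are isomorphisms.

For example Q1 with Flach's injectivity does not change under modifications in closed subschemes of dimension
at most one or with torus actions of complexity at most one; so for arithmetic surfaces it depends only on
the function field. In 2. nothing is assumed about `X` and `Y`.
-/

set_option autoImplicit false

open CategoryTheory AlgebraicGeometry Pool.Agent.Y116.UV Pool.Agent.U738.BN Pool.Agent.U738.CX
  Pool.Agent.U738.SO Pool.Agent.U738.RG Pool.Agent.U738.RI

namespace Pool.Agent.Results.MP_a09a03_nt.CutAndPaste

universe w

/-- **Theorem.** Let the regulators of all weights `n ≤ 0` be isomorphisms in dimension at most `N` (known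
for `N ≤ 1`). (1) Q1 and Flach's injectivity for the connected, regular, proper and flat schemes in
`Built N`. (2) Q1 with Flach's injectivity is invariant under `Equivalent N`, for connected, regular,
proper and flat schemes. (3) The weights separately; Q1 with Flach's injectivity in terms of the
regulators of weight `0`. -/
theorem result (T : Regulators.{w}) (h : IsRegulator T) (F : GenericFibre T)
    (hF : IsGenericFibre F) (N : ℕ) (hN : N ≤ 1 ∨ ForDimension N (AllBijective T)) :
    (∀ X : Sch ℤ, Built N X → IsArithmetic X → Beilinson F X ∧ Flach F X) ∧
    (∀ X Y : Sch ℤ, IsArithmetic X → IsArithmetic Y → Equivalent N X Y →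
      ((Beilinson F X ∧ Flach F X) ↔ (Beilinson F Y ∧ Flach F Y))) ∧
    (∀ X Y : Sch ℤ, Equivalent N X Y → ∀ n : ℤ, n ≤ 0 → (BijectiveIn T n X ↔ BijectiveIn T n Y)) ∧
    (∀ X : Sch ℤ, IsArithmetic X → (BijectiveIn T 0 X ↔ (Beilinson F X ∧ Flach F X))) := by
  have h0 : ForDimension N (AllBijective T) := by
    rcases hN with hN | hN
    · intro A _ _ _ hA
      exact h.curve A (hA.trans (by exact_mod_cast hN))
    · exact hN
  refine ⟨fun X hX hX' => (weight_zero h hF hX').mp (built h h0 hX 0 le_rfl),
    fun X Y hX hY e => ?_, fun X Y e n hn => equivalent_iff h h0 e hn,
    fun X hX => weight_zero h hF hX⟩
  rw [← weight_zero h hF hX, ← weight_zero h hF hY]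
  exact equivalent_iff h h0 e le_rfl

end Pool.Agent.Results.MP_a09a03_nt.CutAndPaste
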