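import Pool.Agent.U374.St.Main
import Pool.Agent.U374.St.Ex
set_option autoImplicit false

/-!
Beilinson's conjecture on regulators in weight `dim X + 1`, for `i = dim X`: on the fibrations
`W(z) = λ g(x) ∏_e L_e(x) ^ (w_e + 1)`, where the `L_e` are arbitrary different affine forms in
`x_0, ..., x_d` and `W` is a Laurent polynomial in `z_0, ..., z_s` which divides a Steinberg tower
and has the origin in the interior of its Newton polytope: unramified classes in Milnor K-theory
with linearly independent regulators, one for each basis of the arrangement without broken circuits
and of internal activity zero.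

The Steinberg towers are defined by recursion on the number of variables, with sums
`A z_k ^ e + B`, products, quotients and monomial changes of the coordinates; they contain the
polynomials of simplex type, but their Newton polytopes, their numbers of monomials and their
coefficients are not bounded.
-/

namespace Pool.Agent.Results.MP_a09a03_nt.SteinbergTowers

open Pool.Agent.N65.TL

open Pool.Agent.U374.St

/-- Let `K` be a number field. The Steinberg towers in the first `k` of the variables
`z_0, ..., z_(n-1)` (`Tower k`) are the Laurent polynomials which arise by the following rules:
monomials `ζ z^m` in `z_0, ..., z_(k-1)` with a root of unity `ζ`; products; quotients by Steinberg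
towers with integral coefficients, if they are Laurent polynomials; `T(z^(M_0), ..., z^(M_(k-1)))`
for a Steinberg tower `T` and linearly independent exponents `M_i` of monomials in
`z_0, ..., z_(k-1)`; and `A z_(k-1)^e + B` with an integer `e ≠ 0` and Steinberg towers `A`, `B` in
`z_0, ..., z_(k-2)`. `TameS W` says that `W Q` is a Steinberg tower for a Laurent polynomial `Q ≠ 0`
with integral coefficients.

(1) If `W Q = ∏_j G_j` with a Laurent polynomial `Q ≠ 0` with integral coefficients and with
polynomials `G_j = ∑_i ε_(j,i) z^(m_(j,i))` of simplex type (the `ε_(j,i)` are roots of unity and
for every `j` the exponents `m_(j,i)` are affinely independent), then `TameS W`.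

(2) Let `s, d ≥ 0`, let `σ` be a complex embedding of `K`, and let `W` be a Laurent polynomial in
`z_0, ..., z_s` over `K` with `TameS W` such that the origin is an interior point of the Newton
polytope (`Interior`: for every functional `a ∈ ℤ^{s+1}`, `a ≠ 0`, there is a monomial `z^m` of `W`
with `a · m > 0`). Let `L_e = ∑_j c_{e,j} x_j - a_e`, `0 ≤ e ≤ m`, be affine forms in
`x_0, ..., x_d` with integral coefficients in `K`, such that no form is a multiple of another one
(there is no condition on the determinants). Let `w_e ≥ 0` be integers and let `g` be a polynomial
in `x_0, ..., x_d` with integral coefficients which does not vanish at the vertices of the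
arrangement (the common zeros of `d + 1` forms with nonzero determinant). Let `Δ` be the product of
all nonzero determinants `det (c_{T_i,j})` of `d + 1` of the forms, and
`B = (2 m + 3) (deg g + ∑_e (w_e + 1)) + 1`. There is a constant `C` such that for all algebraic
integers `μ` of `K` and `λ = μ Δ ^ B` with `|σ λ| ≥ C` the following holds for the coordinate ring
`A` of the open part `Φ ≠ 0` of the hypersurface `W(z) = Φ(x)`, `Φ = λ g ∏_e L_e ^ (w_e + 1)`,
`z_i ≠ 0`, of dimension `s + d + 1`.

For all `T = (T_0, ..., T_d)` with nonzero determinant the symbol
`{z_0, ..., z_s, u_0, ..., u_d}`, `u_i = κ_i L_{T_i} / L_{h_i}`, where `h_i` is the largest index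
such that the determinant of `T` with `T_i` replaced by `h_i` is not zero and `κ_i` is the quotient
of this determinant and of the one of `T`, has unramified images in the Milnor K-theory of all fields
`L` with a homomorphism `A → L`.

There are tori `Γ_T` of dimension `s + d + 1` in the complex points (over `σ`) of the open part, such
that the determinant of the regulators of the symbols of the `T'` on the tori `Γ_T` does not vanish;
here `T` and `T'` run through the set `Ix` of all `T_0 < ... < T_d` with nonzero determinant such
that every `T_i` can be replaced by a later form (with nonzero determinant), and every other form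
which vanishes at the vertex of `T` can replace a later form `T_i`. -/
theorem result.{u, v} (s d m : ℕ) (K : Type u) [Field K] [NumberField K] (σ : K →+* ℂ) :
    (∀ (n : ℕ) (W : LP K n), Tame W → TameS W) ∧
    ∀ F : Fam K s d m, AdmissibleS F →
      ∃ C : ℝ, ∀ mu lam : K, IsIntegral ℤ mu → lam = mu * F.Del ^ F.Bex → C ≤ ‖σ lam‖ →
        Fam.Unram.{u, v} F lam ∧ F.Indep lam σ := by
  refine ⟨fun n W hW => tameS_of_tame hW, fun F hF => ?_⟩
  obtain ⟨C, h⟩ := AdmissibleS.exists_indep σ hF
  exact ⟨C, fun mu lam hmu hlam hl => ⟨hF.unram hmu hlam, h lam hl⟩⟩

end Pool.Agent.Results.MP_a09a03_nt.SteinbergTowers
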