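import Pool.Agent.U759.TQ.Smooth
set_option autoImplicit false

/-!
Beilinson's conjecture on regulators in weight `d = dim X + 1`, for `i = dim X = n`: the hypersurfaces
`φ_0(z_0) φ_1(z_1) ... φ_n(z_n) = λ` over number fields, where every `φ_l = N_l / M_l` is a rational
function of one variable with *torsion functions*: functions `A_(l,j) / B_(l,j)`, `1 ≤ j ≤ k_l`, the
zeros and poles of which are poles of `φ_l` and the values of which at the zeros of `φ_l` are roots of
unity. For all large algebraic integers `λ` the `k_0 k_1 ... k_n` symbols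
`{A_(0,j_0)/B_(0,j_0) (z_0), ..., A_(n,j_n)/B_(n,j_n) (z_n)}` of `K_(n+1)` are unramified at all discrete
valuations, and their regulators are linearly independent; the hypersurface is smooth.

Examples of such functions: `φ = (z² - z + 1)^a / (z^p (z - 1)^q)`, `p + q < 2 a`, with the two
functions `z` and `z - 1`; `φ = 1 / G(x)` with the functions `g_i^(e_0) / g_0^(e_i)`, `e_i = deg g_i`, for
the factors `g_0, ..., g_r` of `G`; `φ = W(z) / z^p` with the function `z`, for a monic polynomial `W` of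
degree greater than `p` whose zeros are roots of unity.

The proof. Unramified: let `v` be a discrete valuation. If some entry is not a unit at `v`, then
`v(φ_l) < 0` for its index `l`; since `∑ v(φ_l) = v(λ) ≥ 0`, there is an index `m` with `v(φ_m) > 0`, and
then a power of the entry with the index `m` is a one-unit. Regulators: let `z_1, ..., z_n` run through
small circles around zeros of `A_(l,a_l)`, and let `z_0` be the branch near a zero of `A_(0,a_0)`; the
regulator of the symbol with the index `(j_0, ..., j_n)` on this torus is `δ_(a,j) c log |λ| + O(1)` with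
`c > 0`. Smooth: at a singular point all `z_l` are critical points of `φ_l`.
-/

namespace Pool.Agent.Results.MP_a09a03_nt.TorsionProducts

open Polynomial

open Pool.Agent.TH826.MK (KQ symb Torus Unramified)

open Pool.Agent.U759.TP (lifts_iff isIntegral_coeff_sub isIntegral_coeff_pow')

open Pool.Agent.U759.TQ

/-- The symbols `{A_(0,j_0)/B_(0,j_0), ..., A_(n,j_n)/B_(n,j_n)}` have unramified images in
`K_(n+1) ⊗ ℚ` of every field with a homomorphism from the coordinate ring of the open part of the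
hypersurface (for example, of the function field of a component). -/
def UnramifiedSymbols.{u, v} {K : Type u} [Field K] {n : ℕ} {k : Fin (n + 1) → ℕ} (D : Dat K n k)
    (lam : K) : Prop :=
  ∀ (L : Type v) [Field L] (h : D.Open lam →+* L) (j : ∀ l, Fin (k l)),
    KQ.map (n + 1) h (symb (D.ent lam j)) ∈ Unramified L (n + 1)

/-- There are `k_0 k_1 ... k_n` tori of dimension `n` in the complex points over `σ` of the open part of
the hypersurface, such that the determinant of the regulators of the `k_0 k_1 ... k_n` symbols on the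
tori does not vanish. -/
def IndependentRegulators {K : Type*} [Field K] {n : ℕ} {k : Fin (n + 1) → ℕ} (σ : K →+* ℂ)
    (D : Dat K n k) (lam : K) : Prop :=
  ∃ Γ : (∀ l, Fin (k l)) → Torus (D.Open lam) n,
    (∀ t θ (y : K), (Γ t).e θ (D.cst lam y) = σ y) ∧
    (Matrix.of fun t s : (∀ l, Fin (k l)) => (Γ t).reg (symb (D.ent lam s))).det ≠ 0

theorem int_of_lifts {K : Type*} [Field K] {P : K[X]}
    (hP : P ∈ Polynomial.lifts (integralClosure ℤ K).toSubring.subtype) (i : ℕ) :
    IsIntegral ℤ (P.coeff i) := (lifts_iff P).2 hP i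

theorem int_X {K : Type*} [Field K] (i : ℕ) : IsIntegral ℤ ((X : K[X]).coeff i) :=
  int_of_lifts (Polynomial.X_mem_lifts _) i

theorem int_one {K : Type*} [Field K] (i : ℕ) : IsIntegral ℤ ((1 : K[X]).coeff i) :=
  int_of_lifts (one_mem _) i

theorem int_zero {K : Type*} [Field K] (i : ℕ) : IsIntegral ℤ ((0 : K[X]).coeff i) :=
  int_of_lifts (zero_mem _) i

theorem int_mul {K : Type*} [Field K] {P Q : K[X]} (hP : ∀ i, IsIntegral ℤ (P.coeff i))
    (hQ : ∀ i, IsIntegral ℤ (Q.coeff i)) (i : ℕ) : IsIntegral ℤ ((P * Q).coeff i) :=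
  int_of_lifts (mul_mem ((lifts_iff P).1 hP) ((lifts_iff Q).1 hQ)) i

theorem int_X1 {K : Type*} [Field K] (i : ℕ) : IsIntegral ℤ ((X - 1 : K[X]).coeff i) :=
  isIntegral_coeff_sub int_X int_one i

/-- The torsion function `(z² - z + 1)^a / (z^p (z - 1)^q)` with the functions `z` and `z - 1`. -/
theorem hexagonal {K : Type*} [Field K] (a p q : ℕ) (hp : p ≠ 0) (hq : q ≠ 0)
    (h : p + q < 2 * a) :
    Tors ((X ^ 2 - X + 1 : K[X]) ^ a) (X ^ p * (X - 1) ^ q) ![X, X - 1] ![1, 1] := by
  have hm : (X ^ 2 - X + 1 : K[X]).Monic := by monicity!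
  have hd : (X ^ 2 - X + 1 : K[X]).natDegree = 2 := by compute_degree!
  have e1 : (X - 1 : K[X]) = X - C 1 := by rw [C_1]
  have hm1 : (X - 1 : K[X]).Monic := by
    rw [e1]
    exact monic_X_sub_C (1 : K)
  have hM : (X ^ p * (X - 1) ^ q : K[X]).Monic := (monic_X.pow p).mul (hm1.pow q)
  have hdM : (X ^ p * (X - 1) ^ q : K[X]).natDegree = p + q := by
    rw [(monic_X.pow p).natDegree_mul (hm1.pow q), natDegree_X_pow, hm1.natDegree_pow, e1,
      natDegree_X_sub_C, mul_one]
  refine ⟨hm.pow a, ?_, ?_, hM.ne_zero, ?_, ?_, ?_, ?_, ?_, ?_, ?_, ?_, Or.inl ⟨hM, ?_⟩⟩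
  · refine isIntegral_coeff_pow' ?_ a
    intro i
    rw [coeff_add]
    exact (isIntegral_coeff_sub (isIntegral_coeff_pow' int_X 2) int_X i).add (int_one i)
  · exact int_mul (isIntegral_coeff_pow' int_X p) (isIntegral_coeff_pow' int_X1 q)
  · intro j
    fin_cases j
    · exact monic_X
    · exact hm1
  · intro j
    fin_cases j
    · exact int_X
    · exact int_X1
  · intro j
    fin_cases j
    · exact monic_one
    · exact monic_one
  · intro j
    fin_cases j
    · exact int_one
    · exact int_one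
  · intro j
    fin_cases j
    · exact ⟨1, by
        rw [pow_one]
        exact Dvd.dvd.mul_right (dvd_pow_self X hp) _⟩
    · exact ⟨1, by
        rw [pow_one]
        exact Dvd.dvd.mul_left (dvd_pow_self (X - 1) hq) _⟩
  · intro j
    fin_cases j
    · exact ⟨0, one_dvd _⟩
    · exact ⟨0, one_dvd _⟩
  · intro j
    refine ⟨0, 1, int_zero, int_one, ?_⟩
    fin_cases j
    · show (0 : K[X]) * _ + 1 * 1 = 1
      ring
    · show (0 : K[X]) * _ + 1 * 1 = 1
      ring
  · intro j
    refine ⟨6, a, by norm_num, pow_dvd_pow_of_dvd ?_ a⟩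
    fin_cases j
    · show (X ^ 2 - X + 1 : K[X]) ∣ X ^ 6 - 1 ^ 6
      exact ⟨(X + 1) * (X ^ 3 - 1), by ring⟩
    · show (X ^ 2 - X + 1 : K[X]) ∣ (X - 1) ^ 6 - 1 ^ 6
      exact ⟨X * (X - 2) * (X ^ 2 - 3 * X + 3), by ring⟩
  · rw [hdM, hm.natDegree_pow, hd]
    omega

/-- The torsion function `1 / G(x)` with the functions `g_i ^ (deg g_0) / g_0 ^ (deg g_i)`. -/
theorem polynomial_factor {K : Type*} [Field K] {r : ℕ} {G : K[X]} {g : Fin (r + 1) → K[X]}
    (hG : ∀ i, IsIntegral ℤ (G.coeff i)) (hG0 : G ≠ 0)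
    (hg : ∀ i, (g i).Monic ∧ (∀ j, IsIntegral ℤ ((g i).coeff j)) ∧ g i ∣ G) :
    Tors 1 G (fun i : Fin r => g i.succ ^ (g 0).natDegree)
      (fun i : Fin r => g 0 ^ (g i.succ).natDegree) := by
  refine ⟨monic_one, int_one, hG, hG0, fun j => (hg _).1.pow _,
    fun j => isIntegral_coeff_pow' (hg _).2.1 _, fun j => (hg _).1.pow _,
    fun j => isIntegral_coeff_pow' (hg _).2.1 _, fun j => ⟨_, pow_dvd_pow_of_dvd (hg _).2.2 _⟩,
    fun j => ⟨_, pow_dvd_pow_of_dvd (hg _).2.2 _⟩, fun j => ⟨1, 0, int_one, int_zero, by ring⟩,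
    fun j => ⟨1, 1, one_ne_zero, one_dvd _⟩, Or.inr fun j => ?_⟩
  rw [(hg _).1.natDegree_pow, (hg _).1.natDegree_pow, mul_comm]

/-- Let `K` be a number field, `σ` a complex embedding of `K` and `n ≥ 2`. For `0 ≤ l ≤ n` let
`φ_l = N_l / M_l` be a rational function of `z_l` with the functions `A_(l,j) / B_(l,j)`, `1 ≤ j ≤ k_l`,
`k_l ≥ 1`, with the conditions `Tors`: all polynomials are integral, `M_l ≠ 0`, the others are monic, the
zeros of the `A_(l,j)` and `B_(l,j)` are zeros of `M_l`, `N_l` and `B_(l,j)` generate the unit ideal over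
the algebraic integers, `N_l` divides a power of `A_(l,j)^m - B_(l,j)^m` for some `m ≥ 1`, and `M_l` is
monic with `deg M_l < deg N_l`, or `deg A_(l,j) = deg B_(l,j)` for all `j`; and with the conditions
`Poles`: for fixed `l` the `A_(l,j)` are not constant, pairwise coprime and coprime to the `B_(l,i)`, and
the zeros of the `A_(0,j)` are simple zeros of `M_0`. There is a constant `C` such that for all algebraic
integers `λ` of `K` with `|σ λ| ≥ C` the following holds for the hypersurface
`∏_l N_l(z_l) = λ ∏_l M_l(z_l)` with the coordinate ring `CRing` and for its open part `Δ ≠ 0`,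
`Δ = ∏_l M_l(z_l) ∏_(l,j) A_(l,j)(z_l) B_(l,j)(z_l)` (`M_l(z_l) ≠ 0` for all `l`), with the coordinate
ring `Open`:

`Open` is not the zero ring; the hypersurface is smooth at all complex points over `σ` with
`M_l(z_l) ≠ 0` for all `l`; the `k_0 ... k_n` symbols `{A_(0,j_0)/B_(0,j_0), ..., A_(n,j_n)/B_(n,j_n)}` of
`K_(n+1) (Open) ⊗ ℚ` have unramified images in `K_(n+1) (L) ⊗ ℚ` for all fields `L` with a homomorphism
`Open → L`; and there are `k_0 ... k_n` tori of dimension `n` in the complex points over `σ` of the open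
part such that the determinant of the regulators of the symbols on the tori does not vanish.

The condition `Tors` is satisfied, over every number field, by `N = (z² - z + 1)^a`, `M = z^p (z - 1)^q`
with `A = (z, z - 1)`, `B = (1, 1)`, if `p, q ≥ 1` and `p + q < 2 a`; and by `N = 1`, `M = G` with
`A_i = g_i^(deg g_0)`, `B_i = g_0^(deg g_i)`, `1 ≤ i ≤ r`, for monic integral factors `g_0, ..., g_r` of an
integral polynomial `G ≠ 0`. -/
theorem result.{u, v} (K : Type u) [Field K] [NumberField K] :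
    (∀ (σ : K →+* ℂ) (n : ℕ) (k : Fin (n + 1) → ℕ) (D : Dat K n k), 2 ≤ n → (∀ l, k l ≠ 0) →
      (∀ l, Tors (D.N l) (D.M l) (D.A l) (D.B l)) → Poles D →
      ∃ C : ℝ, ∀ lam : K, IsIntegral ℤ lam → C ≤ ‖σ lam‖ →
        Nontrivial (D.Open lam) ∧ Smooth σ D lam ∧ UnramifiedSymbols.{u, v} D lam ∧
          IndependentRegulators σ D lam) ∧
    (∀ a p q : ℕ, p ≠ 0 → q ≠ 0 → p + q < 2 * a →
      Tors ((X ^ 2 - X + 1 : K[X]) ^ a) (X ^ p * (X - 1) ^ q) ![X, X - 1] ![1, 1]) ∧
    ∀ (r : ℕ) (G : K[X]) (g : Fin (r + 1) → K[X]), (∀ i, IsIntegral ℤ (G.coeff i)) → G ≠ 0 →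
      (∀ i, (g i).Monic ∧ (∀ j, IsIntegral ℤ ((g i).coeff j)) ∧ g i ∣ G) →
      Tors 1 G (fun i : Fin r => g i.succ ^ (g 0).natDegree)
        (fun i : Fin r => g 0 ^ (g i.succ).natDegree) := by
  refine ⟨fun σ n k D _ hk H P => ?_, fun a p q hp hq h => hexagonal a p q hp hq h,
    fun r G g h1 h2 h3 => polynomial_factor h1 h2 h3⟩
  obtain ⟨C1, hC1⟩ := exists_tori σ H P
  obtain ⟨C2, hC2⟩ := exists_smooth σ H P hk
  refine ⟨max C1 C2, fun lam hint hlam => ?_⟩
  obtain ⟨Γ, h1, h2⟩ := hC1 lam ((le_max_left _ _).trans hlam)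
  refine ⟨?_, hC2 lam ((le_max_right _ _).trans hlam),
    fun L _ h j => symb_unramified h H hint j, Γ, h1, h2⟩
  exact RingHom.domain_nontrivial ((Γ fun l => ⟨0, Nat.pos_of_ne_zero (hk l)⟩).e 0)

end Pool.Agent.Results.MP_a09a03_nt.TorsionProducts
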