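import Pool.Agent.U374.Tr.AMain
set_option autoImplicit false

/-!
Beilinson's conjecture on regulators in weight `dim X + 1`, for `i = dim X`: on the fibrations
`W(z) = λ g(x) ∏_(j,i) (x_j - φ_(j,i)(x_0, ..., x_(j-1))) ^ w_(j,i)` over triangular arrangements of
graphs of arbitrary polynomials, of arbitrary dimension and with arbitrary multiplicities
`w_(j,i) ≥ 0`. The combinations `∑_T n_T {z_0, ..., z_s, P_(0,T_0), ..., P_(d,T_d)}` of the symbols of
the vertices whose coefficients satisfy the linear equations given by the arrangement (sums over
every level, and sums over the classes of graphs which coincide on a graph with multiplicity zero)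
are unramified, and their regulators are linearly independent, for all large integers `λ`.
-/

namespace Pool.Agent.Results.MP_a09a03_nt.TriangularArrangements

open Pool.Agent.TH826.MK (KQ Unramified Torus)

open Pool.Agent.U374.Tr

section defs

variable {K : Type*} [Field K] {s d : ℕ}

/-- `∏_j r_j ≤ dim Adm + ∑_(j,i) (∏_{l < j} r_l) (∏_{l > j} (c_l(j,i) - 1))`, where `(j,i)` runs
through the graphs with multiplicity `w_(j,i) = 0`, and `c_l(j,i)` is the number of the different
polynomials among the restrictions of the `φ_(l,0), ..., φ_(l,r_l)` to the graph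
`x_j = φ_(j,i)`. -/
def DimensionBound (A : Arr K s d) : Prop :=
  ∏ j, A.r j ≤ Module.finrank ℚ A.Adm +
    ∑ e : A.Ix, if A.w e.1 e.2 = 0 then
      (∏ l with l < e.1, A.r l) * ∏ l with e.1 < l, (A.cnt e l - 1) else 0

/-- The classes with coefficients in `Adm` have unramified images in the Milnor K-theory of all
fields `L` with a homomorphism from the coordinate ring of the open part. -/
def UnramifiedClasses.{u, v} {K : Type u} [Field K] (A : Arr K s d) (lam : K) : Prop :=
  ∀ n ∈ A.Adm, ∀ (L : Type v) [Field L] (f : A.Open lam →+* L),
    KQ.map _ f (A.cl lam n) ∈ Unramified L _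

/-- There are tori `Γ_T` over `σ`, one for each tuple `T`, such that the determinant of the
regulators of the symbols of the tuples `T'` on the tori `Γ_T` does not vanish; so the vectors of the
regulators of the classes of linearly independent `n_1, ..., n_D` on the tori are linearly
independent over the real numbers. -/
def IndependentRegulators (σ : K →+* ℂ) (A : Arr K s d) (lam : K) : Prop :=
  ∃ Γ : Tup A.r → Torus (A.Open lam) (s + (d + 1)),
    (∀ T θ (x : K), (Γ T).e θ (A.cst lam x) = σ x) ∧
    (Matrix.of fun T T' : Tup A.r => (Γ T).reg (A.sym lam T')).det ≠ 0 ∧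
    ∀ (D : ℕ) (n : Fin D → Tup A.r → ℚ), LinearIndependent ℚ n →
      LinearIndependent ℝ fun k T => (Γ T).reg (A.cl lam (n k))

end defs

/-- Let `s, d ≥ 0`, let `σ` be a complex embedding of the number field `K`, and let `W` be a Laurent
polynomial in `z_0, ..., z_s` over `K` such that the origin is an interior point of the Newton
polytope (`Interior`) and `W` divides, up to a Laurent polynomial `Q ≠ 0` with integral coefficients,
a product of sums `∑_i ε_i z^{m_i}` with affinely independent exponents `m_i` and roots of unity
`ε_i` (`Tame`). For `0 ≤ j ≤ d` let `φ_(j,0), ..., φ_(j,r_j)` be different polynomials in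
`x_0, ..., x_(j-1)` over `K` with integral coefficients, and let `w_(j,i) ≥ 0` be integers. Let
`g ≠ 0` be any polynomial in `x_0, ..., x_d` with integral coefficients. Put
`P_(j,i) = x_j - φ_(j,i)(x_0, ..., x_(j-1))`.

Let `Adm` be the space of the rational functions `n` on the tuples `T = (T_0, ..., T_d)`,
`0 ≤ T_j ≤ r_j`, such that

* for every `j` and `T` the sum of the `n` of the tuples which one gets from `T` by replacing `T_j`
  vanishes, and
* for every `j` and `T` with `w_(j,T_j) = 0` the sum of the `n_{T'}` over the tuples `T'` with
  `T'_l = T_l` for `l ≤ j` and `φ_(l,T'_l) = φ_(l,T_l)` on the graph `x_j = φ_(j,T_j)` for `l > j`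
  vanishes.

The dimension of `Adm` is at least `∏_j r_j - ∑_(j,i) (∏_{l < j} r_l) (∏_{l > j} (c_l(j,i) - 1))`,
where `(j,i)` runs through the pairs with `w_(j,i) = 0`, and `c_l(j,i)` is the number of the different
restrictions of `φ_(l,0), ..., φ_(l,r_l)` to the graph `x_j = φ_(j,i)`. (If all `w_(j,i)` are
positive, it is at least `∏_j r_j`.)

There is a constant `C` such that for all algebraic integers `λ` of `K` with `|σ λ| ≥ C` the following
holds for the hypersurface `W(z) = λ g(x) ∏_(j,i) P_(j,i)(x) ^ w_(j,i)`, `z_i ≠ 0`, of dimension
`s + d + 1`, and its open part on which `g` and the `P_(j,i)` do not vanish, with coordinate ring `A`.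

For all `n` in `Adm` the class `∑_T n_T {z_0, ..., z_s, P_(0,T_0), ..., P_(d,T_d)}` in the Milnor
K-theory of `A` has unramified images in the Milnor K-theory of all fields `L` with a homomorphism
`A → L`.

There are tori `Γ_T` of dimension `s + d + 1` in the complex points (over `σ`) of the open part, such
that the determinant of the regulators of the symbols `{z_0, ..., z_s, P_(0,T'_0), ..., P_(d,T'_d)}`
on the tori `Γ_T` does not vanish. So the regulators of the classes of linearly independent elements
of `Adm` on these tori are linearly independent over the real numbers. -/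
theorem result.{u, v} (s d : ℕ) (K : Type u) [Field K] [NumberField K] (σ : K →+* ℂ)
    (A : Arr K s d) (hA : A.Admissible) :
    DimensionBound A ∧ ∃ C : ℝ, ∀ lam : K, IsIntegral ℤ lam → C ≤ ‖σ lam‖ →
      UnramifiedClasses.{u, v} A lam ∧ IndependentRegulators σ A lam := by
  obtain ⟨C, -, hC⟩ := Arr.exists_det σ hA
  refine ⟨A.finrank_adm, C, fun lam hlam hl => ⟨Arr.unram hA hlam, ?_⟩⟩
  obtain ⟨Γ, h1, h2⟩ := hC lam hl
  exact ⟨Γ, h1, h2, fun D n hn => Arr.linearIndependent_reg Γ h2 hn⟩

end Pool.Agent.Results.MP_a09a03_nt.TriangularArrangements
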